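import Pool.Agent.Lib_helper42.AAM.Third

/-!
# A third of the first multiples of almost every even number
-/

set_option autoImplicit false

namespace Pool.Agent.AAM

open Finset

/-- Removal of few differences: in every union of `m` intervals of length `n`, every four elements
of the same parity that miss a class modulo `3` have a difference in `D` or in a small set `Z`. -/
def Removal (D : Set ℕ) : Prop :=
  ∀ (m : ℕ) (e : ℝ), 0 < e → ∃ L : ℕ, ∀ n ≥ L, ∀ x : Fin m → ℕ, ∃ Z : Finset ℕ,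
    (Z.card : ℝ) ≤ e * n ∧ ∀ a b c d : ℕ, a < b → b < c → c < d →
      (∀ u, u = a ∨ u = b ∨ u = c ∨ u = d → ∃ i, x i ≤ u ∧ u < x i + n) →
      (a % 2 = b % 2 ∧ a % 2 = c % 2 ∧ a % 2 = d % 2) →
      (∃ r < 3, a % 3 ≠ r ∧ b % 3 ≠ r ∧ c % 3 ≠ r ∧ d % 3 ≠ r) →
      ∃ u, (u = b - a ∨ u = c - a ∨ u = d - a ∨ u = c - b ∨ u = d - b ∨ u = d - c) ∧
        (u ∈ D ∨ u ∈ Z)

open Classical in
/-- the number of `k ≤ K` with `k t` in `D` -/
noncomputable def numMult (D : Set ℕ) (K t : ℕ) : ℕ :=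
  ((Icc 1 K).filter fun k => k * t ∈ D).card

/-- many multiples of `t` are in `D` -/
def GoodMult (D : Set ℕ) (K t : ℕ) : Prop :=
  (K - 2) / 3 ≤ numMult D K t ∧ (3 ∣ t → K / 3 ≤ numMult D K t) ∧ (4 ≤ K → 1 ≤ numMult D K t)

theorem mul_mod3 {x y t : ℕ} (ht : ¬ 3 ∣ t) (h : x % 3 ≠ y % 3) :
    (x * t) % 3 ≠ (y * t) % 3 := by
  intro h'
  have h1 : t % 3 = 1 ∨ t % 3 = 2 := by omega
  rw [Nat.mul_mod, Nat.mul_mod y] at h'
  have hx : x % 3 = 0 ∨ x % 3 = 1 ∨ x % 3 = 2 := by omega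
  have hy : y % 3 = 0 ∨ y % 3 = 1 ∨ y % 3 = 2 := by omega
  rcases h1 with h1 | h1 <;> rcases hx with hx | hx | hx <;> rcases hy with hy | hy | hy <;>
    rw [h1, hx, hy] at h' <;> simp_all

theorem good_of {D : Set ℕ} {K t : ℕ} {Z : Finset ℕ} (ht0 : 0 < t) (ht : Even t)
    (hZ : ∀ k ∈ Icc 1 K, k * t ∉ Z)
    (h : ∀ x y z : ℕ, 0 < x → x < y → y < z → z ≤ K →
      (∃ r < 3, 0 % 3 ≠ r ∧ (x * t) % 3 ≠ r ∧ (y * t) % 3 ≠ r ∧ (z * t) % 3 ≠ r) →
      ∃ u, (u = x * t - 0 ∨ u = y * t - 0 ∨ u = z * t - 0 ∨ u = y * t - x * t ∨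
        u = z * t - x * t ∨ u = z * t - y * t) ∧ (u ∈ D ∨ u ∈ Z)) : GoodMult D K t := by
  classical
  have key : ∀ x y z : ℕ, 0 < x → x < y → y < z → z ≤ K →
      (∃ r < 3, 0 % 3 ≠ r ∧ (x * t) % 3 ≠ r ∧ (y * t) % 3 ≠ r ∧ (z * t) % 3 ≠ r) →
      x * t ∈ D ∨ y * t ∈ D ∨ z * t ∈ D ∨ (y - x) * t ∈ D ∨ (z - x) * t ∈ D ∨
        (z - y) * t ∈ D := by
    intro x y z hx hxy hyz hzK hr
    obtain ⟨u, hu, hu2⟩ := h x y z hx hxy hyz hzK hr
    have hd : ∀ k : ℕ, 1 ≤ k → k ≤ K → u = k * t → k * t ∈ D := by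
      intro k h1 h2 h3
      subst h3
      exact hu2.resolve_right (hZ k (mem_Icc.2 ⟨h1, h2⟩))
    rw [Nat.sub_zero, Nat.sub_zero, Nat.sub_zero, ← Nat.sub_mul, ← Nat.sub_mul,
      ← Nat.sub_mul] at hu
    rcases hu with hu | hu | hu | hu | hu | hu
    · exact Or.inl (hd _ (by omega) (by omega) hu)
    · exact Or.inr (Or.inl (hd _ (by omega) (by omega) hu))
    · exact Or.inr (Or.inr (Or.inl (hd _ (by omega) (by omega) hu)))
    · exact Or.inr (Or.inr (Or.inr (Or.inl (hd _ (by omega) (by omega) hu))))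
    · exact Or.inr (Or.inr (Or.inr (Or.inr (Or.inl (hd _ (by omega) (by omega) hu)))))
    · exact Or.inr (Or.inr (Or.inr (Or.inr (Or.inr (hd _ (by omega) (by omega) hu)))))
  have hclass : ∀ x y z : ℕ, (∃ r, r < 3 ∧ r ≠ 0 ∧ x % 3 ≠ r ∧ y % 3 ≠ r ∧ z % 3 ≠ r) →
      ∃ r < 3, 0 % 3 ≠ r ∧ (x * t) % 3 ≠ r ∧ (y * t) % 3 ≠ r ∧ (z * t) % 3 ≠ r := by
    rintro x y z ⟨r, hr, hr0, h1, h2, h3⟩
    by_cases h3t : 3 ∣ t
    · have hz : ∀ k : ℕ, (k * t) % 3 = 0 := fun k => by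
        obtain ⟨s, rfl⟩ := h3t
        rw [← Nat.mul_assoc, Nat.mul_comm k 3, Nat.mul_assoc]
        exact Nat.mul_mod_right 3 _
      exact ⟨1, by norm_num, by norm_num, by rw [hz]; norm_num, by rw [hz]; norm_num,
        by rw [hz]; norm_num⟩
    · refine ⟨(r * t) % 3, Nat.mod_lt _ (by norm_num), ?_, ?_, ?_, ?_⟩
      · have := mul_mod3 (x := 0) (y := r) h3t (by omega)
        rwa [Nat.zero_mul] at this
      · exact mul_mod3 h3t (by omega)
      · exact mul_mod3 h3t (by omega)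
      · exact mul_mod3 h3t (by omega)
  refine ⟨?_, ?_, ?_⟩
  · unfold numMult
    exact third_multiples K (fun k => k * t ∈ D) fun x y z hx hxy hyz hzK hr =>
      key x y z hx hxy hyz hzK (hclass x y z hr)
  · intro h3t
    unfold numMult
    refine third_multiples' K (fun k => k * t ∈ D) fun x y z hx hxy hyz hzK =>
      key x y z hx hxy hyz hzK ?_
    have hz : ∀ k : ℕ, (k * t) % 3 = 0 := fun k => by
      obtain ⟨s, rfl⟩ := h3t
      rw [← Nat.mul_assoc, Nat.mul_comm k 3, Nat.mul_assoc]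
      exact Nat.mul_mod_right 3 _
    exact ⟨1, by norm_num, by norm_num, by rw [hz]; norm_num, by rw [hz]; norm_num,
      by rw [hz]; norm_num⟩
  · intro hK
    unfold numMult
    rw [Nat.one_le_iff_ne_zero, ← Nat.pos_iff_ne_zero, card_pos]
    have h1 := key 1 3 4 (by norm_num) (by norm_num) (by norm_num) hK
      (hclass 1 3 4 ⟨2, by norm_num⟩)
    have h2 : ∃ k, 1 ≤ k ∧ k ≤ 4 ∧ k * t ∈ D := by
      rcases h1 with h1 | h1 | h1 | h1 | h1 | h1
      · exact ⟨1, by norm_num, by norm_num, h1⟩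
      · exact ⟨3, by norm_num, by norm_num, h1⟩
      · exact ⟨4, by norm_num, by norm_num, h1⟩
      · exact ⟨2, by norm_num, by norm_num, h1⟩
      · exact ⟨3, by norm_num, by norm_num, h1⟩
      · exact ⟨1, by norm_num, by norm_num, h1⟩
    obtain ⟨k, hk1, hk4, hk⟩ := h2
    exact ⟨k, mem_filter.2 ⟨mem_Icc.2 ⟨hk1, hk4.trans hK⟩, hk⟩⟩

open Classical in
/-- For every `K`, almost all even `t` have at least `⌊(K - 2) / 3⌋` of the numbers
`t, 2t, ..., Kt` in `D`; at least `⌊K / 3⌋` if `3` divides `t`, and at least one if `K ≥ 4`. -/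
theorem multiples_of_removal {D : Set ℕ} (hD : Removal D) (K : ℕ) (η : ℝ) (hη : 0 < η) :
    ∃ L : ℕ, ∀ n ≥ L, ∀ x : ℕ,
      (((Ioc x (x + n)).filter fun t => Even t ∧ ¬ GoodMult D K t).card : ℝ) ≤ η * n := by
  set M := K + 1 with hM
  have hM0 : (0 : ℝ) < M := by rw [hM]; positivity
  obtain ⟨L, hL⟩ := hD (K + 1) (η / (M * M)) (by positivity)
  refine ⟨L, fun n hn x => ?_⟩
  have hMn : L ≤ M * n := hn.trans (Nat.le_mul_of_pos_left n (by omega))
  obtain ⟨Z, hZ, hZ2⟩ := hL (M * n) hMn fun i => i.val * (x + 1)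
  -- the bad numbers are quotients of elements of `Z`
  set B := (Ioc x (x + n)).filter fun t => Even t ∧ ¬ GoodMult D K t with hB
  have hsub : B ⊆ (Icc 1 K ×ˢ Z).image fun p => p.2 / p.1 := by
    intro t htB
    rw [hB, mem_filter, mem_Ioc] at htB
    obtain ⟨⟨ht1, ht2⟩, ht3, ht4⟩ := htB
    by_contra hcon
    apply ht4
    refine good_of (Z := Z) (by omega) ht3 ?_ ?_
    · intro k hk hkZ
      apply hcon
      rw [mem_image]
      refine ⟨(k, k * t), mem_product.2 ⟨hk, hkZ⟩, ?_⟩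
      exact Nat.mul_div_cancel_left t (by rw [mem_Icc] at hk; omega)
    · intro y z w hy hyz hzw hwK hr
      have ht0 : 0 < t := by omega
      have hin : ∀ k ≤ K, ∃ i : Fin (K + 1), i.val * (x + 1) ≤ k * t ∧
          k * t < i.val * (x + 1) + M * n := by
        intro k hk
        refine ⟨⟨k, by omega⟩, Nat.mul_le_mul_left k ht1, ?_⟩
        show k * t < k * (x + 1) + M * n
        have h1 : t < (x + 1) + n := by omega
        have h2 : k * t ≤ k * ((x + 1) + (n - 1)) := Nat.mul_le_mul_left k (by omega)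
        have h3 : k * (n - 1) < M * n := by
          have hn0 : 0 < n := by omega
          calc k * (n - 1) ≤ K * (n - 1) := Nat.mul_le_mul_right _ hk
            _ ≤ K * n := Nat.mul_le_mul_left _ (by omega)
            _ < (K + 1) * n := by nlinarith
        rw [Nat.mul_add] at h2
        omega
      refine hZ2 0 (y * t) (z * t) (w * t) (Nat.mul_pos hy ht0)
        (Nat.mul_lt_mul_of_pos_right hyz ht0) (Nat.mul_lt_mul_of_pos_right hzw ht0) ?_ ?_ hr
      · rintro u (rfl | rfl | rfl | rfl)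
        · have := hin 0 (Nat.zero_le K)
          rwa [Nat.zero_mul] at this
        · exact hin y (by omega)
        · exact hin z (by omega)
        · exact hin w hwK
      · have he : ∀ k : ℕ, 0 % 2 = (k * t) % 2 := fun k => by
          obtain ⟨s, rfl⟩ := ht3
          rw [← Nat.two_mul, Nat.mul_left_comm, Nat.mul_mod_right]
        exact ⟨he _, he _, he _⟩
  have hcard : B.card ≤ K * Z.card := by
    refine (card_le_card hsub).trans (card_image_le.trans ?_)
    rw [card_product, Nat.card_Icc, Nat.add_sub_cancel]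
  have h1 : (B.card : ℝ) ≤ K * Z.card := by exact_mod_cast hcard
  have h2 : ((M * n : ℕ) : ℝ) = M * n := by push_cast; rfl
  rw [h2] at hZ
  have h3 : (K : ℝ) ≤ M := by rw [hM]; push_cast; linarith
  calc (B.card : ℝ) ≤ K * Z.card := h1
    _ ≤ M * (η / (M * M) * (M * n)) := by
        apply mul_le_mul h3 hZ (by positivity) hM0.le
    _ = η * n := by field_simp

end Pool.Agent.AAM
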