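import Mathlib

/-!
# A third of the first multiples

Finite combinatorics: if a set `P` of positive integers meets the difference set of every four
elements `0 < x < y < z ≤ K` (together with `0`), possibly only those missing a class modulo `3`,
then it contains about a third of the numbers `1, ..., K`.
-/

set_option autoImplicit false

namespace Pool.Agent.AAM

open Finset

theorem card_class {c : ℕ} (hc : c = 1 ∨ c = 2) (K : ℕ) :
    ((Icc 1 K).filter fun k => k % 3 = c).card = (K + 3 - c) / 3 := by
  induction K with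
  | zero => rcases hc with rfl | rfl <;> decide
  | succ K ih =>
    have h1 : Icc 1 (K + 1) = insert (K + 1) (Icc 1 K) := by
      ext a
      rw [mem_insert, mem_Icc, mem_Icc]
      omega
    rw [h1, filter_insert]
    split_ifs with h
    · rw [card_insert_of_notMem (by rw [mem_filter, mem_Icc]; omega), ih]
      rcases hc with rfl | rfl <;> omega
    · rw [ih]
      rcases hc with rfl | rfl <;> omega

theorem nums0 {c z a b : ℕ} (hc : c = 1 ∨ c = 2) (hzc : z % 3 = c) (ha : a % 3 = 0)
    (hb1 : 1 ≤ b ∧ b ≤ z - 1) (hb : b % 3 = 0) (hab : a ≤ z - b) : a < z - b := by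
  omega

theorem nums1 {c z b y : ℕ} (hc : c = 1 ∨ c = 2) (hz1 : 1 ≤ z) (hzc : z % 3 = c)
    (hb1 : 1 ≤ b ∧ b ≤ z - 1) (hb : b % 3 = 0) (hy1 : 1 ≤ y ∧ y ≤ z - 1) (hy : y % 3 = 0)
    (h : z - b < y) : 0 < z - b ∧ y < z ∧
      (∃ r, r < 3 ∧ r ≠ 0 ∧ (z - b) % 3 ≠ r ∧ y % 3 ≠ r ∧ z % 3 ≠ r) ∧
      (y - (z - b)) % 3 = 3 - c := by
  refine ⟨by omega, by omega, ⟨3 - c, by omega, by omega, ?_, by omega, by omega⟩, ?_⟩
  · rcases hc with rfl | rfl <;> omega
  · rcases hc with rfl | rfl <;> omega

theorem nums2 {c z a y : ℕ} (hc : c = 1 ∨ c = 2) (hz1 : 1 ≤ z) (hzc : z % 3 = c)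
    (ha1 : 1 ≤ a ∧ a ≤ z - 1) (ha : a % 3 = 0) (hy1 : 1 ≤ y ∧ y ≤ z - 1) (hy : y % 3 = 0)
    (h : a < z - y) : z - y < z ∧
      (∃ r, r < 3 ∧ r ≠ 0 ∧ a % 3 ≠ r ∧ (z - y) % 3 ≠ r ∧ z % 3 ≠ r) ∧
      (z - y - a) % 3 = c := by
  refine ⟨by omega, ⟨3 - c, by omega, by omega, by omega, ?_, by omega⟩, ?_⟩
  · rcases hc with rfl | rfl <;> omega
  · rcases hc with rfl | rfl <;> omega

theorem class_bound (K : ℕ) (P : ℕ → Prop) [DecidablePred P]
    (h : ∀ x y z, 0 < x → x < y → y < z → z ≤ K →
      (∃ r, r < 3 ∧ r ≠ 0 ∧ x % 3 ≠ r ∧ y % 3 ≠ r ∧ z % 3 ≠ r) →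
      P x ∨ P y ∨ P z ∨ P (y - x) ∨ P (z - x) ∨ P (z - y)) {c : ℕ} (hc : c = 1 ∨ c = 2) :
    ((Icc 1 K).filter fun k => k % 3 = c).card ≤ ((Icc 1 K).filter P).card + 1 ∨
    ((Icc 1 K).filter fun k => k % 3 = c).card ≤
      (((Icc 1 K).filter P).filter fun k => k % 3 = 0).card +
      2 * (((Icc 1 K).filter P).filter fun k => k % 3 = c).card + 1 := by
  set G := (Icc 1 K).filter P with hG
  set G0 := G.filter fun k => k % 3 = 0 with hG0
  set G1 := G.filter fun k => k % 3 = c with hG1
  set G2 := G.filter fun k => k % 3 = 3 - c with hG2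
  set C := (Icc 1 K).filter fun k => k % 3 = c with hC
  have hsum : G0.card + G1.card + G2.card ≤ G.card := by
    rw [← card_union_of_disjoint, ← card_union_of_disjoint]
    · apply card_le_card
      intro a ha
      simp only [hG0, hG1, hG2, mem_union, mem_filter] at ha
      rcases ha with (ha | ha) | ha <;> exact ha.1
    · rw [disjoint_left]
      intro a ha ha'
      simp only [hG0, hG1, hG2, mem_union, mem_filter] at ha ha'
      omega
    · rw [disjoint_left]
      intro a ha ha'
      simp only [hG0, hG1, mem_filter] at ha ha'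
      omega
  have mG : ∀ {a : ℕ}, 0 < a → a ≤ K → P a → a ∈ G := fun h1 h2 h3 => by
    rw [hG, mem_filter, mem_Icc]
    exact ⟨⟨h1, h2⟩, h3⟩
  by_cases hH : (C \ G).Nonempty
  · obtain ⟨z, hzm, hzmax⟩ : ∃ z ∈ C \ G, ∀ y ∈ C \ G, y ≤ z :=
      ⟨_, max'_mem _ hH, fun y hy => le_max' _ _ hy⟩
    have hzC : z ∈ C := (mem_sdiff.1 hzm).1
    have hzG : z ∉ G := (mem_sdiff.1 hzm).2
    rw [hC, mem_filter, mem_Icc] at hzC
    obtain ⟨⟨hz1, hzK⟩, hzc⟩ := hzC
    set X := (Icc 1 (z - 1)).filter fun x => x % 3 = 0 ∧ x ∉ G ∧ z - x ∉ G with hX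
    have mX : ∀ {a : ℕ}, a ∈ X ↔ (1 ≤ a ∧ a ≤ z - 1) ∧ a % 3 = 0 ∧ a ∉ G ∧ z - a ∉ G := by
      intro a
      rw [hX, mem_filter, mem_Icc]
    have hcov : C ⊆ {z} ∪ G1 ∪ G0.image (fun x => z - x) ∪ X.image (fun x => z - x) := by
      intro y hy
      simp only [mem_union, mem_singleton, mem_image]
      by_cases h1 : y = z
      · exact Or.inl (Or.inl (Or.inl h1))
      · by_cases h2 : y ∈ G
        · rw [hC, mem_filter] at hy
          exact Or.inl (Or.inl (Or.inr (by rw [hG1, mem_filter]; exact ⟨h2, hy.2⟩)))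
        · have h3 : y ≤ z := hzmax _ (mem_sdiff.2 ⟨hy, h2⟩)
          rw [hC, mem_filter, mem_Icc] at hy
          have h4 : (z - y) % 3 = 0 := by omega
          by_cases h5 : z - y ∈ G
          · refine Or.inl (Or.inr ⟨z - y, ?_, by omega⟩)
            rw [hG0, mem_filter]
            exact ⟨h5, h4⟩
          · refine Or.inr ⟨z - y, ?_, by omega⟩
            rw [mX]
            refine ⟨by omega, h4, h5, ?_⟩
            have : z - (z - y) = y := by omega
            rw [this]
            exact h2
    have hcard : C.card ≤ 1 + G1.card + G0.card + X.card := by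
      refine (card_le_card hcov).trans ?_
      refine (card_union_le _ _).trans (Nat.add_le_add ?_ card_image_le)
      refine (card_union_le _ _).trans (Nat.add_le_add ?_ card_image_le)
      refine (card_union_le _ _).trans (Nat.add_le_add ?_ le_rfl)
      rw [card_singleton]
    by_cases hne : X.Nonempty
    · obtain ⟨a, ham, hamin⟩ : ∃ a ∈ X, ∀ y ∈ X, a ≤ y :=
        ⟨_, min'_mem _ hne, fun y hy => min'_le _ _ hy⟩
      obtain ⟨b, hbm, hbmax⟩ : ∃ b ∈ X, ∀ y ∈ X, y ≤ b :=
        ⟨_, max'_mem _ hne, fun y hy => le_max' _ _ hy⟩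
      have ham' := mX.1 ham
      have hbm' := mX.1 hbm
      have hPn : ∀ {u : ℕ}, 0 < u → u ≤ K → u ∉ G → ¬ P u := fun h1 h2 h3 h4 =>
        h3 (mG h1 h2 h4)
      rcases Nat.lt_or_ge (z - b) a with hab | hab
      · left
        have hsub : X.image (fun y => y - (z - b)) ⊆ G2 := by
          intro w hw
          rw [mem_image] at hw
          obtain ⟨y, hy, rfl⟩ := hw
          have hy' := mX.1 hy
          have hay : a ≤ y := hamin _ hy
          obtain ⟨k1, k2, k3, k4⟩ := nums1 hc hz1 hzc hbm'.1 hbm'.2.1 hy'.1 hy'.2.1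
            (lt_of_lt_of_le hab hay)
          have h1 := h (z - b) y z k1 (lt_of_lt_of_le hab hay) k2 hzK k3
          rw [Nat.sub_sub_self (by omega : b ≤ z)] at h1
          have h3 : P (y - (z - b)) := by
            rcases h1 with h1 | h1 | h1 | h1 | h1 | h1
            · exact absurd h1 (hPn k1 (by omega) hbm'.2.2.2)
            · exact absurd h1 (hPn (by omega) (by omega) hy'.2.2.1)
            · exact absurd h1 (hPn hz1 hzK hzG)
            · exact h1
            · exact absurd h1 (hPn hbm'.1.1 (by omega) hbm'.2.2.1)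
            · exact absurd h1 (hPn (by omega) (by omega) hy'.2.2.2)
          rw [hG2, mem_filter]
          exact ⟨mG (by omega) (by omega) h3, k4⟩
        have hXc : X.card ≤ G2.card := by
          rw [← card_image_of_injOn (s := X) (f := fun y => y - (z - b)) ?_]
          · exact card_le_card hsub
          · intro u hu v hv huv
            have hu' : a ≤ u := hamin _ hu
            have hv' : a ≤ v := hamin _ hv
            simp only at huv
            clear hcard hsum
            omega
        omega
      · right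
        have hab' : a < z - b := nums0 hc hzc ham'.2.1 hbm'.1 hbm'.2.1 hab
        have hsub : X.image (fun y => z - y - a) ⊆ G1 := by
          intro w hw
          rw [mem_image] at hw
          obtain ⟨y, hy, rfl⟩ := hw
          have hy' := mX.1 hy
          have hyb : y ≤ b := hbmax _ hy
          have hya : a < z - y := by omega
          obtain ⟨k1, k3, k4⟩ := nums2 hc hz1 hzc ham'.1 ham'.2.1 hy'.1 hy'.2.1 hya
          have h1 := h a (z - y) z ham'.1.1 hya k1 hzK k3
          rw [Nat.sub_sub_self (by omega : y ≤ z)] at h1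
          have h3 : P (z - y - a) := by
            rcases h1 with h1 | h1 | h1 | h1 | h1 | h1
            · exact absurd h1 (hPn ham'.1.1 (by omega) ham'.2.2.1)
            · exact absurd h1 (hPn (by omega) (by omega) hy'.2.2.2)
            · exact absurd h1 (hPn hz1 hzK hzG)
            · exact h1
            · exact absurd h1 (hPn (by omega) (by omega) ham'.2.2.2)
            · exact absurd h1 (hPn hy'.1.1 (by omega) hy'.2.2.1)
          rw [hG1, mem_filter]
          exact ⟨mG (by omega) (by omega) h3, k4⟩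
        have hXc : X.card ≤ G1.card := by
          rw [← card_image_of_injOn (s := X) (f := fun y => z - y - a) ?_]
          · exact card_le_card hsub
          · intro u hu v hv huv
            have hu' : u ≤ b := hbmax _ hu
            have hv' : v ≤ b := hbmax _ hv
            simp only at huv
            clear hcard hsum
            omega
        omega
    · rw [not_nonempty_iff_eq_empty] at hne
      rw [hne, card_empty] at hcard
      left
      omega
  · left
    rw [not_nonempty_iff_eq_empty, sdiff_eq_empty_iff_subset] at hH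
    have := card_le_card hH
    omega

/-- If `P` meets the difference set of all `0 < x < y < z ≤ K` and `0` that miss a class modulo
`3`, then it contains at least `⌊(K - 2) / 3⌋` of the numbers `1, ..., K`. -/
theorem third_multiples (K : ℕ) (P : ℕ → Prop) [DecidablePred P]
    (h : ∀ x y z, 0 < x → x < y → y < z → z ≤ K →
      (∃ r, r < 3 ∧ r ≠ 0 ∧ x % 3 ≠ r ∧ y % 3 ≠ r ∧ z % 3 ≠ r) →
      P x ∨ P y ∨ P z ∨ P (y - x) ∨ P (z - x) ∨ P (z - y)) :
    (K - 2) / 3 ≤ ((Icc 1 K).filter P).card := by
  have h1 := class_bound K P h (Or.inl rfl)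
  have h2 := class_bound K P h (Or.inr rfl)
  rw [card_class (Or.inl rfl)] at h1
  rw [card_class (Or.inr rfl)] at h2
  have hsum : (((Icc 1 K).filter P).filter fun k => k % 3 = 0).card +
      (((Icc 1 K).filter P).filter fun k => k % 3 = 1).card +
      (((Icc 1 K).filter P).filter fun k => k % 3 = 2).card ≤ ((Icc 1 K).filter P).card := by
    rw [← card_union_of_disjoint, ← card_union_of_disjoint]
    · apply card_le_card
      intro a ha
      simp only [mem_union, mem_filter] at ha ⊢
      tauto
    · rw [disjoint_left]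
      intro a ha ha'
      simp only [mem_union, mem_filter] at ha ha'
      omega
    · rw [disjoint_left]
      intro a ha ha'
      simp only [mem_filter] at ha ha'
      omega
  omega

/-- If `P` meets the difference set of all `0 < x < y < z ≤ K` and `0`, then it contains at least
`⌊K / 3⌋` of the numbers `1, ..., K`. -/
theorem third_multiples' (K : ℕ) (P : ℕ → Prop) [DecidablePred P]
    (h : ∀ x y z, 0 < x → x < y → y < z → z ≤ K →
      P x ∨ P y ∨ P z ∨ P (y - x) ∨ P (z - x) ∨ P (z - y)) :
    K / 3 ≤ ((Icc 1 K).filter P).card := by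
  set G := (Icc 1 K).filter P with hG
  have mG : ∀ {a : ℕ}, 0 < a → a ≤ K → P a → a ∈ G := fun h1 h2 h3 => by
    rw [hG, mem_filter, mem_Icc]
    exact ⟨⟨h1, h2⟩, h3⟩
  have hPn : ∀ {u : ℕ}, 0 < u → u ≤ K → u ∉ G → ¬ P u := fun h1 h2 h3 h4 =>
    h3 (mG h1 h2 h4)
  suffices K ≤ 3 * G.card + 2 by omega
  by_cases hH : (Icc 1 K \ G).Nonempty
  · set z := (Icc 1 K \ G).max' hH with hz
    have hzm : z ∈ Icc 1 K \ G := max'_mem _ _
    have hzC := (mem_sdiff.1 hzm).1
    have hzG : z ∉ G := (mem_sdiff.1 hzm).2
    rw [mem_Icc] at hzC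
    obtain ⟨hz1, hzK⟩ := hzC
    set X := (Icc 1 (z - 1)).filter fun x => x ∉ G ∧ z - x ∉ G with hX
    have mX : ∀ {a : ℕ}, a ∈ X ↔ (1 ≤ a ∧ a ≤ z - 1) ∧ a ∉ G ∧ z - a ∉ G := by
      intro a
      rw [hX, mem_filter, mem_Icc]
    have hcov : Icc 1 K ⊆ {z} ∪ G ∪ G.image (fun x => z - x) ∪ X := by
      intro y hy
      simp only [mem_union, mem_singleton, mem_image]
      by_cases h1 : y = z
      · exact Or.inl (Or.inl (Or.inl h1))
      · by_cases h2 : y ∈ G
        · exact Or.inl (Or.inl (Or.inr h2))
        · have h3 : y ≤ z := le_max' _ _ (mem_sdiff.2 ⟨hy, h2⟩)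
          rw [mem_Icc] at hy
          by_cases h5 : z - y ∈ G
          · exact Or.inl (Or.inr ⟨z - y, h5, by omega⟩)
          · exact Or.inr (mX.2 ⟨by omega, h2, h5⟩)
    have hcard : K ≤ 1 + G.card + G.card + X.card := by
      have hK : (Icc 1 K).card = K := by rw [Nat.card_Icc]; omega
      rw [← hK]
      refine (card_le_card hcov).trans ?_
      refine (card_union_le _ _).trans (Nat.add_le_add ?_ le_rfl)
      refine (card_union_le _ _).trans (Nat.add_le_add ?_ card_image_le)
      refine (card_union_le _ _).trans (Nat.add_le_add ?_ le_rfl)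
      rw [card_singleton]
    by_cases hne : X.Nonempty
    · set a := X.min' hne with ha
      have ham : a ∈ X := min'_mem _ _
      have ham' := mX.1 ham
      have hsub : (X.erase a).image (fun y => y - a) ⊆ G := by
        intro w hw
        rw [mem_image] at hw
        obtain ⟨y, hy, rfl⟩ := hw
        rw [mem_erase] at hy
        have hy' := mX.1 hy.2
        have hay : a ≤ y := min'_le _ _ hy.2
        have hay' : a < y := lt_of_le_of_ne hay (Ne.symm hy.1)
        have h1 := h a y z (by omega) hay' (by omega) hzK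
        have g1 : ¬ P a := hPn (by omega) (by omega) ham'.2.1
        have g2 : ¬ P y := hPn (by omega) (by omega) hy'.2.1
        have g3 : ¬ P z := hPn (by omega) (by omega) hzG
        have g4 : ¬ P (z - a) := hPn (by omega) (by omega) ham'.2.2
        have g5 : ¬ P (z - y) := hPn (by omega) (by omega) hy'.2.2
        have h3 : P (y - a) := by tauto
        exact mG (by omega) (by omega) h3
      have hXc : (X.erase a).card ≤ G.card := by
        rw [← card_image_of_injOn (s := X.erase a) (f := fun y => y - a) ?_]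
        · exact card_le_card hsub
        · intro u hu v hv huv
          have hu' : a ≤ u := min'_le _ _ (mem_erase.1 hu).2
          have hv' : a ≤ v := min'_le _ _ (mem_erase.1 hv).2
          simp only at huv
          omega
      rw [card_erase_of_mem ham] at hXc
      omega
    · rw [not_nonempty_iff_eq_empty] at hne
      rw [hne, card_empty] at hcard
      omega
  · rw [not_nonempty_iff_eq_empty, sdiff_eq_empty_iff_subset] at hH
    have := card_le_card hH
    rw [Nat.card_Icc] at this
    omega

end Pool.Agent.AAM
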